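import Pool.Agent.T6.H5.PW.Defs

/-!
Module G of project PW: the gradient bound on `Vn`.
-/

set_option autoImplicit false
open MeasureTheory Filter Topology Finset
open scoped ContDiff ENNReal

namespace Pool.Agent.T6.H5.PW

open Pool.Agent.Y139.SW

universe u

namespace ModG

variable {d : ℕ} {S : Type u} [MeasurableSpace S] {P : Measure S}
  {τ : E d → S → S}

theorem D_eq_dd (i : Fin d) (f : E d → ℝ) : D i f = dd (EuclideanSpace.single i 1) f := rfl

theorem dd_eq {f : E d → ℝ} (w : Fin d → ℝ) (y : E d) :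
    dd (WithLp.toLp 2 w) f y = ∑ i, w i * D i f y := by
  have e : (WithLp.toLp 2 w : E d) = ∑ i, w i • EuclideanSpace.single i (1 : ℝ) := by
    ext j
    simp [Pi.single_apply]
  unfold dd D
  rw [e, map_sum]
  simp

theorem prod_int {K L : S → E d → ℝ} (hK : SF τ K) (hL : SF τ L)
    (h1 : Integrable (fun s => K s 0 ^ 2) P) (h2 : Integrable (fun s => L s 0 ^ 2) P) :
    Integrable (fun s => K s 0 * L s 0) P :=
  mul_l2 (hK.meas 0) (hL.meas 0) h1 h2

end ModG

open ModG in
theorem stmtG (hV : StmtV.{u}) (hA : StmtA.{u}) : StmtG.{u} := by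
  intro d S _ P τ _ hτ n hn K0 hK0
  have V := hV (P := P) hτ n hn
  -- the bilinear form
  have hint : ∀ K L : Vn P τ n, Integrable (fun s => K.1 s 0 * L.1 s 0) P := fun K L =>
    prod_int (V K.1 K.2).1 (V L.1 L.2).1 (V K.1 K.2).2.1 (V L.1 L.2).2.1
  let B : (Vn P τ n) →ₗ[ℝ] (Vn P τ n) →ₗ[ℝ] ℝ :=
    LinearMap.mk₂ ℝ (fun K L => ∫ s, K.1 s 0 * L.1 s 0 ∂P)
      (fun K K' L => by
        show ∫ s, (K.1 s 0 + K'.1 s 0) * L.1 s 0 ∂P = _
        simp_rw [add_mul]
        exact integral_add (hint K L) (hint K' L))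
      (fun c K L => by
        show ∫ s, (c * K.1 s 0) * L.1 s 0 ∂P = c * ∫ s, K.1 s 0 * L.1 s 0 ∂P
        simp_rw [mul_assoc]
        exact integral_const_mul _ _)
      (fun K L L' => by
        show ∫ s, K.1 s 0 * (L.1 s 0 + L'.1 s 0) ∂P = _
        simp_rw [mul_add]
        exact integral_add (hint K L) (hint K L'))
      (fun c K L => by
        show ∫ s, K.1 s 0 * (c * L.1 s 0) ∂P = c * ∫ s, K.1 s 0 * L.1 s 0 ∂P
        simp_rw [mul_left_comm]
        exact integral_const_mul _ _)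
  have hB : ∀ K L : Vn P τ n, B K L = ∫ s, K.1 s 0 * L.1 s 0 ∂P := fun K L => rfl
  -- the derivations
  let Dd : Fin d → Module.End ℝ (Vn P τ n) := fun i =>
    { toFun := fun K => ⟨fun s => D i (K.1 s), (V K.1 K.2).2.2.1 (EuclideanSpace.single i 1)⟩
      map_add' := fun K L => by
        apply Subtype.ext
        funext s y
        show fderiv ℝ (K.1 s + L.1 s) y _ = fderiv ℝ (K.1 s) y _ + fderiv ℝ (L.1 s) y _
        rw [fderiv_add (sdiff ((V K.1 K.2).1.smooth s) y) (sdiff ((V L.1 L.2).1.smooth s) y)]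
        rfl
      map_smul' := fun c K => by
        apply Subtype.ext
        funext s y
        show fderiv ℝ (c • K.1 s) y _ = c * fderiv ℝ (K.1 s) y _
        rw [fderiv_const_smul (sdiff ((V K.1 K.2).1.smooth s) y)]
        rfl }
  have hD : ∀ i (K : Vn P τ n) s y, (Dd i K).1 s y = D i (K.1 s) y := fun i K s y => rfl
  have key := hA (Vn P τ n) B (fun K L => by
      rw [hB, hB]; congr 1; funext s; ring)
    (fun K => by
      rw [hB]; exact integral_nonneg fun s => mul_self_nonneg _) d Dd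
    (fun i j => by
      apply LinearMap.ext
      intro K
      apply Subtype.ext
      funext s y
      exact D_comm ((V K.1 K.2).1.smooth s) i j y)
    (fun i K L => by
      have sK := (V K.1 K.2).1
      have sL := (V L.1 L.2).1
      have e1 : ∀ s, D i (fun y => K.1 s y * L.1 s y) 0 =
          (Dd i K).1 s 0 * L.1 s 0 + K.1 s 0 * (Dd i L).1 s 0 := fun s =>
        D_mul (sK.smooth s) (sL.smooth s) i 0
      have h0 := div0 hτ (sK.mul sL) i (hint K L) (by
        simp only [e1]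
        exact (hint (Dd i K) L).add (hint K (Dd i L)))
      simp only [e1] at h0
      rw [integral_add (hint (Dd i K) L) (hint K (Dd i L))] at h0
      rw [hB, hB]
      linarith)
    (n : ℝ) (Nat.cast_nonneg n) ⟨K0, hK0⟩
  obtain ⟨C, hC⟩ := (V K0 hK0).2.2.2
  have hpow : ∀ (w : Fin d → ℝ) (m : ℕ) (s : S),
      (((∑ i, w i • Dd i) ^ m) (⟨K0, hK0⟩ : Vn P τ n)).1 s =
        (dd (WithLp.toLp 2 w))^[m] (K0 s) := by
    intro w m
    induction m with
    | zero => intro s; rfl
    | succ m ih =>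
      intro s
      rw [Function.iterate_succ_apply', ← ih s, pow_succ']
      funext y
      rw [dd_eq]
      show ((∑ i, w i • Dd i) ((((∑ i, w i • Dd i) ^ m) (⟨K0, hK0⟩ : Vn P τ n)))).1 s y = _
      rw [LinearMap.sum_apply]
      rw [show (∑ i, (w i • Dd i) (((∑ i, w i • Dd i) ^ m) (⟨K0, hK0⟩ : Vn P τ n)) :
        Vn P τ n).1 = ∑ i, ((w i • Dd i) (((∑ i, w i • Dd i) ^ m) (⟨K0, hK0⟩ : Vn P τ n))).1 from
        (Vn P τ n).coe_sum _ _]
      rw [Finset.sum_apply, Finset.sum_apply]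
      rfl
  have := key C (fun w hw m => by
    rw [hB]
    have hn1 : ‖(WithLp.toLp 2 w : E d)‖ ≤ 1 := by
      rw [← sq_le_one_iff₀ (norm_nonneg _), EuclideanSpace.real_norm_sq_eq]
      exact hw
    refine le_trans (le_of_eq ?_) (hC _ hn1 m)
    congr 1
    funext s
    rw [hpow w m s, pow_two])
  rw [hB] at this
  calc ∑ i, ∫ s, D i (K0 s) 0 ^ 2 ∂P = ∑ i, B (Dd i ⟨K0, hK0⟩) (Dd i ⟨K0, hK0⟩) := by
        refine Finset.sum_congr rfl fun i _ => ?_
        rw [hB]
        congr 1
        funext s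
        rw [pow_two]
        rfl
    _ ≤ _ := this
    _ = (n : ℝ) ^ 2 * ∫ s, K0 s 0 ^ 2 ∂P := by
        congr 2
        funext s
        rw [pow_two]

end Pool.Agent.T6.H5.PW
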