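import Pool.Agent.T6.H5.PW.Defs

/-!
Module P of project PW: norm bound for polynomials of a skew contraction.
-/

set_option autoImplicit false
open Filter Topology Finset Polynomial

namespace Pool.Agent.T6.H5.PW

namespace ModP

/-! ### Bernstein expansion of monomials -/

theorem mono_bern {n k : ℕ} (hk : k ≤ n) :
    (X : ℝ[X]) ^ k = ∑ ν ∈ range (n + 1),
      C ((ν.choose k : ℝ) / n.choose k) * bernsteinPolynomial ℝ n ν := by
  obtain ⟨m, rfl⟩ := Nat.exists_eq_add_of_le hk
  rw [show k + m + 1 = k + (m + 1) by ring, Finset.sum_range_add]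
  have h0 : ∑ ν ∈ range k, C ((ν.choose k : ℝ) / (k + m).choose k) *
      bernsteinPolynomial ℝ (k + m) ν = 0 := by
    refine Finset.sum_eq_zero fun ν hν => ?_
    rw [Nat.choose_eq_zero_of_lt (Finset.mem_range.1 hν)]
    simp
  rw [h0, zero_add]
  have h1 : (X : ℝ[X]) ^ k = X ^ k * (X + (1 - X)) ^ m := by
    rw [show (X : ℝ[X]) + (1 - X) = 1 by ring]; simp
  rw [h1, add_pow, Finset.mul_sum]
  refine Finset.sum_congr rfl fun μ hμ => ?_
  have hμ' : μ ≤ m := Nat.lt_succ_iff.1 (Finset.mem_range.1 hμ)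
  rw [bernsteinPolynomial]
  have h2 : ((k + m).choose (k + μ) : ℝ) * ((k + μ).choose k : ℝ) =
      ((k + m).choose k : ℝ) * (m.choose μ : ℝ) := by
    have := Nat.choose_mul (n := k + m) (k := k + μ) (s := k) (by omega)
    rw [Nat.add_sub_cancel_left, Nat.add_sub_cancel_left] at this
    exact_mod_cast this
  have h3 : ((k + m).choose k : ℝ) ≠ 0 := by
    exact_mod_cast (Nat.choose_pos (Nat.le_add_right k m)).ne'
  have h4 : (m.choose μ : ℝ[X]) = C (((k + μ).choose k : ℝ) / (k + m).choose k) *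
      ((k + m).choose (k + μ) : ℝ[X]) := by
    rw [← Polynomial.C_eq_natCast, ← Polynomial.C_eq_natCast, ← C_mul]
    congr 1
    field_simp
    linarith
  rw [show k + m - (k + μ) = m - μ by omega, h4]
  ring

theorem ratio_bound {n ν : ℕ} (hν : ν ≤ n) {K : ℕ} (hK : K < n) (k : ℕ) (hk : k ≤ K) :
    0 ≤ ((ν.choose k : ℝ) / n.choose k) ∧ ((ν.choose k : ℝ) / n.choose k) ≤ 1 ∧
    0 ≤ ((ν : ℝ) / n) ^ k - (ν.choose k : ℝ) / n.choose k ∧
    ((ν : ℝ) / n) ^ k - (ν.choose k : ℝ) / n.choose k ≤ k * (K / (n - K : ℝ)) := by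
  have hn : (0 : ℝ) < n := by exact_mod_cast (by omega : 0 < n)
  have hKn : (0 : ℝ) < n - K := by
    have : (K : ℝ) < n := by exact_mod_cast hK
    linarith
  have hνn : (ν : ℝ) ≤ n := by exact_mod_cast hν
  have hν0 : (0 : ℝ) ≤ ν := Nat.cast_nonneg _
  have hr0 : (0 : ℝ) ≤ (ν : ℝ) / n := by positivity
  have hr1 : (ν : ℝ) / n ≤ 1 := by rw [div_le_one hn]; exact hνn
  induction k with
  | zero => simp
  | succ k ih =>
    obtain ⟨i0, i1, i2, i3⟩ := ih (by omega)
    set P := (ν.choose k : ℝ) / n.choose k with hP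
    have hkn : (k : ℝ) < n := by exact_mod_cast (by omega : k < n)
    have hkK : (k : ℝ) + 1 ≤ K := by exact_mod_cast hk
    have hk0 : (0 : ℝ) ≤ k := Nat.cast_nonneg _
    -- the new ratio
    have hstep : ((ν.choose (k + 1) : ℝ) / n.choose (k + 1)) = P * (((ν - k : ℕ) : ℝ) / (n - k)) := by
      have e1 : (ν.choose (k + 1) : ℝ) * (k + 1) = ν.choose k * ((ν - k : ℕ) : ℝ) := by
        exact_mod_cast Nat.choose_succ_right_eq ν k
      have e2 : (n.choose (k + 1) : ℝ) * (k + 1) = n.choose k * ((n - k : ℕ) : ℝ) := by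
        exact_mod_cast Nat.choose_succ_right_eq n k
      rw [Nat.cast_sub (by omega : k ≤ n)] at e2
      have p1 : (n.choose (k + 1) : ℝ) ≠ 0 := by
        exact_mod_cast (Nat.choose_pos (by omega : k + 1 ≤ n)).ne'
      have p2 : (n.choose k : ℝ) ≠ 0 := by
        exact_mod_cast (Nat.choose_pos (by omega : k ≤ n)).ne'
      have p3 : (n : ℝ) - k ≠ 0 := by linarith
      have p4 : (k : ℝ) + 1 ≠ 0 := by positivity
      have e3 : (ν.choose (k + 1) : ℝ) = ν.choose k * ((ν - k : ℕ) : ℝ) / (k + 1) := by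
        field_simp; linarith
      have e4 : (n.choose (k + 1) : ℝ) = n.choose k * ((n : ℝ) - k) / (k + 1) := by
        field_simp; linarith
      rw [hP, e3, e4]
      field_simp
    have hnk : (0 : ℝ) < n - k := by linarith
    set a := (((ν - k : ℕ) : ℝ) / (n - k)) with ha
    have ha0 : 0 ≤ a := by positivity
    have ha1 : a ≤ (ν : ℝ) / n := by
      rcases le_total k ν with h | h
      · rw [ha, Nat.cast_sub h, div_le_div_iff₀ hnk hn]
        nlinarith
      · rw [ha, Nat.sub_eq_zero_of_le h]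
        simpa using hr0
    have ha2 : (ν : ℝ) / n - a ≤ K / (n - K : ℝ) := by
      have h1 : ((ν : ℝ) - k) / (n - k) ≤ a := by
        rw [ha]
        apply div_le_div_of_nonneg_right _ hnk.le
        have : ν ≤ (ν - k) + k := by omega
        have : (ν : ℝ) ≤ ((ν - k : ℕ) : ℝ) + k := by exact_mod_cast this
        linarith
      have h2 : (ν : ℝ) / n - ((ν : ℝ) - k) / (n - k) ≤ k / (n - k : ℝ) := by
        rw [div_sub_div _ _ hn.ne' hnk.ne', div_le_div_iff₀ (by positivity) hnk]
        have : (ν : ℝ) * (n - k) - n * (ν - k) = k * (n - ν) := by ring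
        rw [this]
        have h3 : (k : ℝ) * (n - ν) ≤ k * n := by nlinarith
        nlinarith
      have h3 : (k : ℝ) / (n - k : ℝ) ≤ K / (n - K : ℝ) := by
        rw [div_le_div_iff₀ hnk hKn]
        nlinarith
      linarith
    rw [hstep, pow_succ]
    refine ⟨by positivity, ?_, ?_, ?_⟩
    · calc P * a ≤ 1 * 1 := by
            apply mul_le_mul i1 (ha1.trans hr1) ha0 zero_le_one
        _ = 1 := by ring
    · have : P * a ≤ ((ν : ℝ) / n) ^ k * ((ν : ℝ) / n) :=
        mul_le_mul (by linarith) ha1 ha0 (by positivity)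
      linarith
    · have hpk : ((ν : ℝ) / n) ^ k ≤ 1 := pow_le_one₀ hr0 hr1
      have hpk0 : 0 ≤ ((ν : ℝ) / n) ^ k := by positivity
      have e : ((ν : ℝ) / n) ^ k * ((ν : ℝ) / n) - P * a =
          (((ν : ℝ) / n) ^ k - P) * a + ((ν : ℝ) / n) ^ k * ((ν : ℝ) / n - a) := by ring
      rw [e]
      have f1 : (((ν : ℝ) / n) ^ k - P) * a ≤ (((ν : ℝ) / n) ^ k - P) * 1 :=
        mul_le_mul_of_nonneg_left (ha1.trans hr1) i2
      have f2 : ((ν : ℝ) / n) ^ k * ((ν : ℝ) / n - a) ≤ 1 * ((ν : ℝ) / n - a) :=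
        mul_le_mul_of_nonneg_right hpk (by linarith)
      push_cast
      nlinarith

/-- a linear functional that is nonnegative on `X^k (1-X)^l` is monotone on `[0,1]` -/
theorem functional_le (L : ℝ[X] →ₗ[ℝ] ℝ) (hL : ∀ k l : ℕ, 0 ≤ L (X ^ k * (1 - X) ^ l))
    (q : ℝ[X]) (B : ℝ) (hq : ∀ x ∈ Set.Icc (0 : ℝ) 1, q.eval x ≤ B) : L q ≤ B * L 1 := by
  set K := q.natDegree with hKdef
  set A := ∑ k ∈ range (K + 1), |q.coeff k| with hA
  have hL1 : 0 ≤ L 1 := by simpa using hL 0 0
  have hb : ∀ n ν, 0 ≤ L (bernsteinPolynomial ℝ n ν) := by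
    intro n ν
    rw [bernsteinPolynomial, mul_assoc, ← Polynomial.C_eq_natCast, ← Polynomial.smul_eq_C_mul,
      map_smul, smul_eq_mul]
    exact mul_nonneg (Nat.cast_nonneg _) (hL _ _)
  have key : ∀ n : ℕ, K < n → L q ≤ (B + A * (K * (K / (n - K : ℝ)))) * L 1 := by
    intro n hn
    have e1 : q = ∑ ν ∈ range (n + 1), C (∑ k ∈ range (K + 1),
        q.coeff k * ((ν.choose k : ℝ) / n.choose k)) * bernsteinPolynomial ℝ n ν := by
      conv_lhs => rw [q.as_sum_range_C_mul_X_pow]
      simp_rw [map_sum, Finset.sum_mul]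
      rw [Finset.sum_comm]
      refine Finset.sum_congr rfl fun k hk => ?_
      have hk' : k ≤ n := by have := Finset.mem_range.1 hk; omega
      rw [mono_bern hk', Finset.mul_sum]
      refine Finset.sum_congr rfl fun ν _ => ?_
      rw [C_mul]; ring
    have e2 : (1 : ℝ[X]) = ∑ ν ∈ range (n + 1), bernsteinPolynomial ℝ n ν :=
      (bernsteinPolynomial.sum ℝ n).symm
    have hKn : (0 : ℝ) < n - K := by
      have : (K : ℝ) < n := by exact_mod_cast hn
      linarith
    have hn0 : (0 : ℝ) < n := by exact_mod_cast (by omega : 0 < n)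
    conv_lhs => rw [e1]
    conv_rhs => rw [e2]
    rw [map_sum, map_sum, Finset.mul_sum]
    refine Finset.sum_le_sum fun ν hν => ?_
    rw [← Polynomial.smul_eq_C_mul, map_smul, smul_eq_mul]
    refine mul_le_mul_of_nonneg_right ?_ (hb n ν)
    have hν' : ν ≤ n := Nat.lt_succ_iff.1 (Finset.mem_range.1 hν)
    have hx : (ν : ℝ) / n ∈ Set.Icc (0 : ℝ) 1 := by
      refine ⟨by positivity, ?_⟩
      rw [div_le_one hn0]; exact_mod_cast hν'
    have hqx := hq _ hx
    rw [q.eval_eq_sum_range] at hqx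
    have : ∑ k ∈ range (K + 1), q.coeff k * ((ν.choose k : ℝ) / n.choose k) ≤
        ∑ k ∈ range (K + 1), q.coeff k * ((ν : ℝ) / n) ^ k +
          ∑ k ∈ range (K + 1), |q.coeff k| * (K * (K / (n - K : ℝ))) := by
      rw [← Finset.sum_add_distrib]
      refine Finset.sum_le_sum fun k hk => ?_
      have hk' : k ≤ K := by have := Finset.mem_range.1 hk; omega
      obtain ⟨_, _, r2, r3⟩ := ratio_bound hν' hn k hk'
      have r4 : ((ν : ℝ) / n) ^ k - (ν.choose k : ℝ) / n.choose k ≤ K * (K / (n - K : ℝ)) := by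
        refine r3.trans (mul_le_mul_of_nonneg_right (by exact_mod_cast hk') (by positivity))
      have : q.coeff k * ((ν.choose k : ℝ) / n.choose k) - q.coeff k * ((ν : ℝ) / n) ^ k ≤
          |q.coeff k| * (K * (K / (n - K : ℝ))) := by
        calc q.coeff k * ((ν.choose k : ℝ) / n.choose k) - q.coeff k * ((ν : ℝ) / n) ^ k
            = (-q.coeff k) * (((ν : ℝ) / n) ^ k - (ν.choose k : ℝ) / n.choose k) := by ring
          _ ≤ |q.coeff k| * (((ν : ℝ) / n) ^ k - (ν.choose k : ℝ) / n.choose k) :=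
              mul_le_mul_of_nonneg_right (neg_le_abs _) r2
          _ ≤ _ := mul_le_mul_of_nonneg_left r4 (abs_nonneg _)
      linarith
    rw [← Finset.sum_mul] at this
    linarith
  have hlim : Tendsto (fun n : ℕ => (B + A * (K * (K / (n - K : ℝ)))) * L 1) atTop
      (𝓝 ((B + A * (K * 0)) * L 1)) := by
    refine Tendsto.mul_const _ (Tendsto.const_add _ (Tendsto.const_mul _ (Tendsto.const_mul _ ?_)))
    refine Tendsto.div_atTop tendsto_const_nhds ?_
    exact tendsto_atTop_add_const_right _ _ tendsto_natCast_atTop_atTop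
  have := ge_of_tendsto hlim (Filter.eventually_atTop.2 ⟨K + 1, fun n hn => key n (by omega)⟩)
  simpa using this

/-! ### The bilinear form -/

section form

variable {H : Type*} [NormedAddCommGroup H] [InnerProductSpace ℝ H] (v : ℕ → H)

/-- the vector `p(D) v` -/
noncomputable def T : ℝ[X] →ₗ[ℝ] H :=
  Polynomial.lsum (fun j => LinearMap.toSpanSingleton ℝ H (v j))

theorem T_monomial (j : ℕ) (a : ℝ) : T v (monomial j a) = a • v j := by
  simp [T, Polynomial.lsum_apply]

theorem T_range (N : ℕ) (a : ℕ → ℝ) :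
    T v (∑ j ∈ range N, monomial j (a j)) = ∑ j ∈ range N, a j • v j := by
  rw [map_sum]
  exact Finset.sum_congr rfl fun j _ => T_monomial v j _

variable (h1 : ∀ j k, inner ℝ (v (j + 1)) (v k) = -inner ℝ (v j) (v (k + 1)))
  (h2 : ∀ (N : ℕ) (a : ℕ → ℝ), ‖∑ j ∈ range N, a j • v (j + 1)‖ ≤ ‖∑ j ∈ range N, a j • v j‖)

include h1 in
theorem skew (f g : ℝ[X]) : inner ℝ (T v (X * f)) (T v g) = -inner ℝ (T v f) (T v (X * g)) := by
  induction f using Polynomial.induction_on' with
  | add p q hp hq =>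
    rw [mul_add, map_add, map_add, inner_add_left, inner_add_left, hp, hq]; ring
  | monomial j a =>
    induction g using Polynomial.induction_on' with
    | add p q hp hq =>
      rw [mul_add, map_add, map_add, inner_add_right, inner_add_right, hp, hq]; ring
    | monomial k b =>
      rw [X_mul_monomial, X_mul_monomial]
      simp only [T_monomial, inner_smul_left, inner_smul_right, h1]
      simp

include h2 in
theorem contr (f : ℝ[X]) : ‖T v (X * f)‖ ≤ ‖T v f‖ := by
  have := h2 (f.natDegree + 1) f.coeff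
  have e1 : T v f = ∑ j ∈ range (f.natDegree + 1), f.coeff j • v j := by
    conv_lhs => rw [f.as_sum_range]
    exact T_range v _ _
  have e2 : T v (X * f) = ∑ j ∈ range (f.natDegree + 1), f.coeff j • v (j + 1) := by
    conv_lhs => rw [f.as_sum_range]
    rw [Finset.mul_sum, map_sum]
    refine Finset.sum_congr rfl fun j _ => ?_
    rw [X_mul_monomial, T_monomial]
  rw [e1, e2]; exact this

include h1 in
theorem skew2 (f g : ℝ[X]) :
    inner ℝ (T v (X ^ 2 * f)) (T v g) = inner ℝ (T v f) (T v (X ^ 2 * g)) := by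
  rw [pow_two, mul_assoc, mul_assoc, skew v h1, skew v h1, neg_neg]

include h1 in
theorem self1 (f g : ℝ[X]) :
    inner ℝ (T v ((1 + X ^ 2) * f)) (T v g) = inner ℝ (T v f) (T v ((1 + X ^ 2) * g)) := by
  rw [add_mul, add_mul, one_mul, one_mul, map_add, map_add, inner_add_left, inner_add_right,
    skew2 v h1]

include h1 h2 in
theorem posl (l : ℕ) : ∀ f : ℝ[X], 0 ≤ inner ℝ (T v ((1 + X ^ 2) ^ l * f)) (T v f) := by
  induction l using Nat.twoStepInduction with
  | zero => intro f; simp
  | one =>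
    intro f
    rw [pow_one, add_mul, one_mul, map_add, inner_add_left, pow_two, mul_assoc, skew v h1,
      real_inner_self_eq_norm_sq, real_inner_self_eq_norm_sq]
    have := contr v h2 f
    have h0 := norm_nonneg (T v (X * f))
    nlinarith
  | more l ih _ =>
    intro f
    have e : (1 + X ^ 2 : ℝ[X]) ^ (l + 2) * f = (1 + X ^ 2) * ((1 + X ^ 2) ^ l * ((1 + X ^ 2) * f)) := by
      ring
    rw [e, self1 v h1]
    exact ih _

include h1 h2 in
theorem poskl (k l : ℕ) : ∀ f : ℝ[X],
    0 ≤ inner ℝ (T v ((-X ^ 2) ^ k * (1 + X ^ 2) ^ l * f)) (T v f) := by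
  induction k with
  | zero => intro f; simpa using posl v h1 h2 l f
  | succ k ih =>
    intro f
    have e : (-X ^ 2 : ℝ[X]) ^ (k + 1) * (1 + X ^ 2) ^ l * f =
        X * (-((-X ^ 2) ^ k * (1 + X ^ 2) ^ l * (X * f))) := by ring
    rw [e, skew v h1, map_neg, inner_neg_left, neg_neg]
    exact ih _

/-- the functional `r ↦ ⟨r(-D²) v, v⟩` -/
noncomputable def Lam : ℝ[X] →ₗ[ℝ] ℝ where
  toFun r := inner ℝ (T v (r.comp (-X ^ 2))) (T v 1)
  map_add' r s := by simp [inner_add_left]
  map_smul' c r := by simp [inner_smul_left]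

include h1 in
theorem refl_move (p g : ℝ[X]) :
    inner ℝ (T v p) (T v g) = inner ℝ (T v (p.comp (-X) * g)) (T v 1) := by
  have : ∀ p h g : ℝ[X], inner ℝ (T v (p * h)) (T v g) = inner ℝ (T v h) (T v (p.comp (-X) * g)) := by
    intro p
    induction p using Polynomial.induction_on with
    | C a =>
      intro h g
      simp [← Polynomial.smul_eq_C_mul, inner_smul_left, inner_smul_right]
    | add p q hp hq =>
      intro h g
      rw [add_mul, map_add, inner_add_left, hp, hq, add_comp, add_mul, map_add, inner_add_right]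
    | monomial n a ih =>
      intro h g
      have e : C a * X ^ (n + 1) * h = C a * X ^ n * (X * h) := by ring
      rw [e, ih, skew v h1]
      rw [← inner_neg_right, ← map_neg]
      congr 2
      simp only [mul_comp, C_comp, pow_comp, X_comp]
      ring
  have h := this p 1 g
  rw [mul_one] at h
  rw [h, real_inner_comm]

theorem even_poly (f : ℝ[X]) (hf : f.comp (-X) = f) : ∃ e : ℝ[X], f = e.comp (X ^ 2) := by
  refine ⟨contract 2 f, ?_⟩
  rw [← expand_eq_comp_X_pow]
  ext n
  rw [coeff_expand (by norm_num), coeff_contract (by norm_num)]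
  split_ifs with h
  · rw [Nat.div_mul_cancel h]
  · have h1 : (f.comp (-X)).coeff n = (-1) ^ n * f.coeff n := by
      rw [show (-X : ℝ[X]) = C (-1) * X by simp, comp_C_mul_X_coeff, mul_comm]
    rw [hf] at h1
    have h2 : (-1 : ℝ) ^ n = -1 := by
      apply Odd.neg_one_pow
      exact Nat.odd_iff.2 (by omega)
    rw [h2] at h1
    linarith

include h1 h2 in
theorem bound (p : ℝ[X]) (M : ℝ) (hM0 : 0 ≤ M)
    (hM : ∀ x ∈ Set.Icc (-1 : ℝ) 1,
      ‖(p.map (algebraMap ℝ ℂ)).eval ((x : ℂ) * Complex.I)‖ ≤ M) :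
    ‖T v p‖ ≤ M * ‖v 0‖ := by
  set f := p.comp (-X) * p with hf
  have hfe : f.comp (-X) = f := by
    rw [hf, mul_comp, comp_assoc]
    simp [mul_comm]
  obtain ⟨e, he⟩ := even_poly f hfe
  set q := e.comp (-X) with hq
  have hqf : q.comp (-X ^ 2) = f := by
    rw [hq, comp_assoc, he]; simp
  have hsq : ‖T v p‖ ^ 2 = Lam v q := by
    rw [← real_inner_self_eq_norm_sq, refl_move v h1]
    change _ = inner ℝ (T v (q.comp (-X ^ 2))) (T v 1)
    rw [hqf]
  have hL1 : Lam v 1 = ‖v 0‖ ^ 2 := by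
    change inner ℝ (T v ((1 : ℝ[X]).comp (-X ^ 2))) (T v 1) = _
    have : T v 1 = v 0 := by
      have := T_monomial v 0 1
      rwa [monomial_zero_one, one_smul] at this
    rw [one_comp, this, real_inner_self_eq_norm_sq]
  have hle : Lam v q ≤ M ^ 2 * Lam v 1 := by
    apply functional_le
    · intro k l
      have := poskl v h1 h2 k l 1
      rw [mul_one] at this
      change 0 ≤ inner ℝ (T v ((X ^ k * (1 - X) ^ l : ℝ[X]).comp (-X ^ 2))) (T v 1)
      have e : (X ^ k * (1 - X) ^ l : ℝ[X]).comp (-X ^ 2) = (-X ^ 2) ^ k * (1 + X ^ 2) ^ l := by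
        simp [sub_comp]
      rw [e]; exact this
    · intro u hu
      set x := √u with hx
      have hx2 : x ^ 2 = u := Real.sq_sqrt hu.1
      have hxI : x ∈ Set.Icc (-1 : ℝ) 1 := by
        refine ⟨by linarith [Real.sqrt_nonneg u], ?_⟩
        rw [hx]; exact Real.sqrt_le_one.2 hu.2
      have hMx := hM x hxI
      set z := (p.map (algebraMap ℝ ℂ)).eval ((x : ℂ) * Complex.I) with hz
      have hval : ((q.eval u : ℝ) : ℂ) = ((‖z‖ ^ 2 : ℝ) : ℂ) := by
        have hzc : (starRingEnd ℂ) z = (p.map (algebraMap ℝ ℂ)).eval (-((x : ℂ) * Complex.I)) := by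
          rw [hz, eval_map_algebraMap, eval_map_algebraMap, ← Polynomial.aeval_conj]
          simp
        have e1 : ((q.eval u : ℝ) : ℂ) = (f.map (algebraMap ℝ ℂ)).eval ((x : ℂ) * Complex.I) := by
          rw [← hqf, eval_map_algebraMap, aeval_comp]
          have : aeval ((x : ℂ) * Complex.I) (-X ^ 2 : ℝ[X]) = ((u : ℝ) : ℂ) := by
            simp only [map_neg, map_pow, aeval_X]
            rw [mul_pow, Complex.I_sq, ← hx2]; push_cast; ring
          rw [this]
          exact (Polynomial.aeval_algebraMap_apply_eq_algebraMap_eval u q).symm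
        rw [e1, hf, Polynomial.map_mul, eval_mul, ← hz]
        have e2 : ((p.comp (-X)).map (algebraMap ℝ ℂ)).eval ((x : ℂ) * Complex.I) =
            (starRingEnd ℂ) z := by
          rw [hzc, Polynomial.map_comp]; simp [eval_comp]
        rw [e2, ← Complex.normSq_eq_conj_mul_self, Complex.normSq_eq_norm_sq]
      have hval' : q.eval u = ‖z‖ ^ 2 := by exact_mod_cast hval
      rw [hval']
      exact pow_le_pow_left₀ (norm_nonneg _) hMx 2
  rw [← hsq, hL1, ← mul_pow] at hle
  exact (pow_le_pow_iff_left₀ (norm_nonneg _) (by positivity) two_ne_zero).1 hle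

end form

end ModP

theorem stmtP : StmtP := by
  intro H _ _ v h1 h2 N a M hM
  set p : ℝ[X] := ∑ j ∈ range N, monomial j (a j) with hp
  have hM0 : 0 ≤ M := (norm_nonneg _).trans (hM 0 (by norm_num))
  have := ModP.bound v h1 h2 p M hM0 (by
    intro x hx
    have := hM x hx
    rw [hp, Polynomial.map_sum, eval_finsetSum]
    simpa using this)
  rw [hp, ModP.T_range] at this
  exact this

end Pool.Agent.T6.H5.PW
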