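import Pool.Agent.T6.H5.PW.Defs

/-!
Module T of project PW: the triangle wave.
-/

set_option autoImplicit false
open Filter Topology Finset

namespace Pool.Agent.T6.H5.PW

namespace ModT

theorem hs_congr {f g : ℕ → ℝ} {a : ℝ} (h : ∀ k, f k = g k) (hg : HasSum g a) : HasSum f a := by
  rw [show f = g from funext h]; exact hg

theorem cos_sum {y : ℝ} (hy : y ∈ Set.Icc (0 : ℝ) 1) :
    HasSum (fun n : ℕ => 1 / (n : ℝ) ^ 2 * Real.cos (2 * Real.pi * n * y))
      (Real.pi ^ 2 * (y ^ 2 - y + 1 / 6)) := by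
  have h := hasSum_one_div_nat_pow_mul_cos (k := 1) one_ne_zero hy
  have e : (-1 : ℝ) ^ (1 + 1) * (2 * Real.pi) ^ (2 * 1) / 2 / (2 * 1).factorial *
      (Polynomial.map (algebraMap ℚ ℝ) (Polynomial.bernoulli (2 * 1))).eval y =
      Real.pi ^ 2 * (y ^ 2 - y + 1 / 6) := by
    have hb : (Polynomial.map (algebraMap ℚ ℝ) (Polynomial.bernoulli (2 * 1))).eval y =
        y ^ 2 - y + 1 / 6 := by
      rw [Polynomial.bernoulli]
      simp [Finset.sum_range_succ, bernoulli_eq_bernoulli'_of_ne_one, bernoulli_one, bernoulli'_two]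
      ring
    rw [hb]
    have hfac : ((2 * 1).factorial : ℝ) = 2 := by norm_num [Nat.factorial]
    rw [hfac]
    ring
  rw [e] at h
  simpa using h

theorem odd_sum {y : ℝ} (hy : y ∈ Set.Icc (0 : ℝ) (1 / 2)) :
    HasSum (fun k : ℕ => 1 / (2 * k + 1 : ℝ) ^ 2 * Real.cos (2 * Real.pi * (2 * k + 1) * y))
      (Real.pi ^ 2 * (1 / 8 - y / 2)) := by
  have h1 := cos_sum (y := y) ⟨hy.1, by linarith [hy.2]⟩
  have h2 := (cos_sum (y := 2 * y) ⟨by linarith [hy.1], by linarith [hy.2]⟩).mul_left (1 / 4)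
  set f : ℕ → ℝ := fun n => 1 / (n : ℝ) ^ 2 * Real.cos (2 * Real.pi * n * y) with hf
  have h3 : HasSum (fun k : ℕ => f (2 * k)) (1 / 4 * (Real.pi ^ 2 * ((2 * y) ^ 2 - 2 * y + 1 / 6))) := by
    refine hs_congr (fun k => ?_) h2
    simp only [hf]
    push_cast
    rw [show 2 * Real.pi * (2 * (k : ℝ)) * y = 2 * Real.pi * k * (2 * y) by ring]
    rcases eq_or_ne (k : ℝ) 0 with h | h
    · rw [h]; simp
    · rw [show (1 : ℝ) / (2 * (k : ℝ)) ^ 2 = 1 / 4 * (1 / (k : ℝ) ^ 2) by field_simp; norm_num]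
      ring
  have hs : Summable (fun k : ℕ => f (2 * k + 1)) :=
    h1.summable.comp_injective (fun a b h => by simpa using h)
  have h4 := h3.even_add_odd hs.hasSum
  have h5 := h1.unique h4
  have h6 := hs.hasSum
  have e : ∑' k : ℕ, f (2 * k + 1) = Real.pi ^ 2 * (1 / 8 - y / 2) := by
    linear_combination -h5
  rw [e] at h6
  refine hs_congr (fun k => ?_) h6
  simp only [hf]
  push_cast
  ring

theorem tri {x : ℝ} (hx : x ∈ Set.Icc (-1 : ℝ) 1) :
    HasSum (fun k => 2 * cR k * Real.sin (xR k * x)) x := by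
  have h := (odd_sum (y := (1 - x) / 4) ⟨by linarith [hx.2], by linarith [hx.1]⟩).mul_left
    (8 / Real.pi ^ 2)
  have hpi : Real.pi ≠ 0 := Real.pi_ne_zero
  have e : 8 / Real.pi ^ 2 * (Real.pi ^ 2 * (1 / 8 - (1 - x) / 4 / 2)) = x := by
    field_simp; ring
  rw [e] at h
  refine hs_congr (fun k => ?_) h
  have hc : Real.cos (2 * Real.pi * (2 * k + 1) * ((1 - x) / 4)) =
      (-1) ^ k * Real.sin (xR k * x) := by
    rw [show 2 * Real.pi * (2 * (k : ℝ) + 1) * ((1 - x) / 4) =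
      (Real.pi / 2 - xR k * x) + k * Real.pi by simp only [xR]; ring]
    rw [Real.cos_add_nat_mul_pi, Real.cos_pi_div_two_sub]
  rw [hc, cR]
  ring

end ModT

theorem stmtT : StmtT := by
  refine ⟨fun x hx => ModT.tri hx, ?_⟩
  have h := ModT.tri (x := 1) ⟨by norm_num, le_refl _⟩
  refine ModT.hs_congr (fun k => ?_) h
  have hs : Real.sin (xR k * 1) = (-1) ^ k := by
    rw [show xR k * 1 = Real.pi / 2 + k * Real.pi by simp only [xR]; ring,
      Real.sin_add_nat_mul_pi, Real.sin_pi_div_two, mul_one]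
  rw [hs, cR, abs_div, abs_mul, abs_pow, abs_neg, abs_one, one_pow,
    abs_of_pos (by positivity : (0 : ℝ) < 4 / Real.pi ^ 2 ),
    abs_of_pos (by positivity : (0 : ℝ) < (2 * (k : ℝ) + 1) ^ 2)]
  have h1 : ((-1 : ℝ) ^ k) * (-1) ^ k = 1 := by
    rw [← mul_pow]; simp
  linear_combination (-(8 / Real.pi ^ 2 / (2 * (k : ℝ) + 1) ^ 2)) * h1

end Pool.Agent.T6.H5.PW
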